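import Pool.Agent.H125B.Fin

/-!
# The space of contraction semigroups on a separable Hilbert space is a Baire space

Let `𝒳` be the space of all families `F(t)`, `t ≥ 0`, of contractions of `H` with continuous matrix
coefficients `⟨F(t) x_i, x_j⟩`, with the locally uniform topology of these coefficients. By weak
compactness of the unit ball `𝒳` is a closed subspace of the completely metrizable space
`∏_{i,j} C([0,∞), ℂ)`. For a Hilbert basis `(e_m)` one has
`⟨F(s) F(t) x_i, x_j⟩ = lim_N ∑_{m < N} ⟨F(s) e_m, x_j⟩ ⟨F(t) x_i, e_m⟩`, a pointwise limit of
continuous functions of `F`, so the semigroup law at a pair of times is a `G_δ` condition, and it is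
enough to impose it on a countable dense set of times. So the contraction `C₀`-semigroups form a
`G_δ` subset of a completely metrizable space, hence a Baire space, and the metric `d` of the
question induces the same topology.
-/

namespace Pool.Agent.Results.MP_eb8260_an.ContractionSemigroupsBaire

open Pool.Agent.H125B

universe u

/-- For every complex Hilbert space `H` and every dense sequence `x_1, x_2, …` (written
`x 0, x 1, …`) of nonzero vectors of `H`, the function `d` of the question is a metric on the set of
all contraction `C₀`-semigroups on `H`, and with this metric that set is a Baire space. -/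
theorem result (H : Type u) [NormedAddCommGroup H] [InnerProductSpace ℂ H] [CompleteSpace H]
    (x : ℕ → H) (hx0 : ∀ i, x i ≠ 0) (hx : DenseRange x) :
    ∃ m : MetricSpace (CSG H), (∀ T S : CSG H, m.dist T S = cdist x T S) ∧
      @BaireSpace (CSG H) m.toUniformSpace.toTopologicalSpace :=
  main x hx0 hx

end Pool.Agent.Results.MP_eb8260_an.ContractionSemigroupsBaire
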